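import Mathlib

namespace Pool.Agent.Results.MP_c0f1e3_an.RaysDoNotSuffice

open Set Filter Topology

section Defs
variable {K V : Type*} [RCLike K] [NormedAddCommGroup V] [NormedSpace K V]

/-- The orbit of `v` under the subsemigroup of `GL(V)` generated by `G`. -/
def orbit (G : Finset (LinearMap.GeneralLinearGroup K V)) (v : V) : Set V :=
  {y | ∃ s ∈ Subsemigroup.closure (G : Set (LinearMap.GeneralLinearGroup K V)),
    y = (s : V →ₗ[K] V) v}

variable (K) in
/-- The ray `{t w : t > 0}`. -/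
def ray (w : V) : Set V := {y | ∃ t : ℝ, 0 < t ∧ y = (t : K) • w}

/-- `A` is coarsely dense along `Y`. -/
def CoarselyDenseAlong (A Y : Set V) : Prop := ∃ D : ℝ, 0 < D ∧ Y ⊆ ⋃ a ∈ A, Metric.ball a D

variable (K V) in
/-- The property asked for in Q1: some finite family of rays forces a somewhere dense orbit. -/
def RaysForce : Prop :=
  ∃ (m : ℕ) (w : Fin m → V), (∀ i, w i ≠ 0) ∧
    ∀ G : Finset (LinearMap.GeneralLinearGroup K V), (∀ g ∈ G, ∀ h ∈ G, g * h = h * g) →
      (∃ v, CoarselyDenseAlong (orbit G v) (⋃ i, ray K (w i))) →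
        ∃ y, (interior (closure (orbit G y))).Nonempty

end Defs

variable {K V : Type*} [RCLike K] [NormedAddCommGroup V] [NormedSpace K V]

/-- The commutative group of maps `z ↦ c (z + ℓ(z) τ)` with `ℓ τ = 0`. -/
noncomputable def phi (l : V →ₗ[K] K) :
    Kˣ × Multiplicative (LinearMap.ker l) →* Module.End K V where
  toFun p := (p.1 : K) • (LinearMap.id + l.smulRight ((Multiplicative.toAdd p.2 : LinearMap.ker l) : V))
  map_one' := by ext z; simp
  map_mul' p q := by
    ext z
    have h : l ((Multiplicative.toAdd q.2 : LinearMap.ker l) : V) = 0 :=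
      (Multiplicative.toAdd q.2).2
    simp [h, smul_add, smul_smul, add_comm, add_left_comm, mul_assoc]

theorem phi_apply (l : V →ₗ[K] K) (p : Kˣ × Multiplicative (LinearMap.ker l)) (z : V) :
    phi l p z = (p.1 : K) • (z + l z • ((Multiplicative.toAdd p.2 : LinearMap.ker l) : V)) := by
  simp [phi]

theorem fin_bdd {m : ℕ} (a : Fin m → ℝ) (ha : ∀ j, 1 ≤ a j) (R : ℝ) :
    ({r | ∃ n : Fin m → ℕ, r = ∑ j, n j * a j} ∩ Iio R).Finite := by
  obtain ⟨N, hN⟩ := exists_nat_ge R
  refine ((Set.Finite.pi' (fun _ : Fin m => finite_Iic N)).image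
    fun n : Fin m → ℕ => ∑ j, (n j : ℝ) * a j).subset ?_
  rintro r ⟨⟨n, rfl⟩, hr⟩
  refine ⟨n, fun j => ?_, rfl⟩
  have h1 : (n j : ℝ) * a j ≤ ∑ j, (n j : ℝ) * a j :=
    Finset.single_le_sum (f := fun j => (n j : ℝ) * a j)
      (fun i _ => mul_nonneg (Nat.cast_nonneg _) (by linarith [ha i])) (Finset.mem_univ j)
  have h2 : (n j : ℝ) ≤ n j * a j := le_mul_of_one_le_right (Nat.cast_nonneg _) (ha j)
  have h3 : (n j : ℝ) ≤ N := by
    have : ∑ j, (n j : ℝ) * a j < R := hr
    linarith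
  exact_mod_cast h3

/-- The positive scalar `exp r` as a unit. -/
noncomputable def eu (K : Type*) [RCLike K] (r : ℝ) : Kˣ :=
  Units.mk0 ((Real.exp r : ℝ) : K) (by exact_mod_cast (Real.exp_pos r).ne')

theorem eu_add (r s : ℝ) : eu K (r + s) = eu K r * eu K s := by
  ext; simp [eu, Real.exp_add]

/-- If `dim V ≥ 2`, then for every finite family of rays there is a finitely generated commutative
subsemigroup of `GL(V)` with an orbit coarsely dense along the union of the rays and with no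
somewhere dense orbit. -/
theorem high (K V : Type*) [RCLike K] [NormedAddCommGroup V] [NormedSpace K V]
    [FiniteDimensional K V] (hV : 2 ≤ Module.finrank K V) (m : ℕ) (w : Fin m → V)
    (hw : ∀ i, w i ≠ 0) :
    ∃ G : Finset (LinearMap.GeneralLinearGroup K V), (∀ g ∈ G, ∀ h ∈ G, g * h = h * g) ∧
      (∃ v, CoarselyDenseAlong (orbit G v) (⋃ i, ray K (w i))) ∧
      ∀ y, interior (closure (orbit G y)) = ∅ := by
  classical
  haveI : Nontrivial V := Module.nontrivial_of_finrank_pos (R := K) (by omega)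
  obtain ⟨v1, hv1⟩ := exists_ne (0 : V)
  obtain ⟨l, hl⟩ := Module.exists_dual_forall_apply_ne_zero (K := K)
    (fun o : Option (Fin m) => o.elim v1 w) (by rintro (_ | i); exact hv1; exact hw i)
  have hl1 : l v1 ≠ 0 := hl none
  have hlw : ∀ i, l (w i) ≠ 0 := fun i => hl (some i)
  have hker : LinearMap.ker l ≠ ⊥ :=
    LinearMap.ker_ne_bot_of_finrank_lt (by rw [Module.finrank_self]; omega)
  obtain ⟨u, hu, hu0⟩ := (Submodule.ne_bot_iff _).1 hker
  have hlu : l u = 0 := hu
  obtain ⟨ψ, hψ⟩ : ∃ ψ : V →ₗ[K] K, ψ u = 1 := Module.Projective.exists_dual_eq_one K hu0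
  let v0 : V := (l v1)⁻¹ • v1
  have hv0 : l v0 = 1 := by simp [v0, hl1]
  obtain ⟨R, hR⟩ : ∃ R : ℝ, ∀ i, 1 - RCLike.re (ψ ((l (w i))⁻¹ • w i - v0)) ≤ R :=
    (Finite.bddAbove_range _).imp fun R hR i => hR ⟨i, rfl⟩
  let v : V := v0 - (R : K) • u
  have hv : l v = 1 := by simp [v, hv0, hlu]
  let t : Fin m → LinearMap.ker l := fun i => ⟨(l (w i))⁻¹ • w i - v, by
    simp [hv, hlw i]⟩
  have ht : ∀ i, 1 ≤ RCLike.re (ψ (t i)) := by
    intro i
    have h1 : (t i : V) = ((l (w i))⁻¹ • w i - v0) + (R : K) • u := by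
      simp only [t, v]; abel
    have := hR i
    rw [h1, map_add, map_smul, hψ, map_add]
    simp only [smul_eq_mul, mul_one, RCLike.ofReal_re]
    linarith
  let Φ := (phi l).toHomUnits
  let g : Fin m → Kˣ × Multiplicative (LinearMap.ker l) :=
    fun i => (Units.mk0 (l (w i)) (hlw i), Multiplicative.ofAdd (t i))
  let G0 : Finset (Kˣ × Multiplicative (LinearMap.ker l)) :=
    Finset.univ.image g ∪ {(eu K 1, 1), (eu K (-1), 1), (eu K √2, 1), (eu K (-√2), 1)}
  refine ⟨G0.image Φ, ?_, ⟨v, 1, one_pos, ?_⟩, ?_⟩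
  · intro a ha b hb
    obtain ⟨p, -, rfl⟩ := Finset.mem_image.1 ha
    obtain ⟨q, -, rfl⟩ := Finset.mem_image.1 hb
    rw [← map_mul, ← map_mul, mul_comm]
  · set S := Subsemigroup.closure
      ((G0.image Φ : Finset _) : Set (LinearMap.GeneralLinearGroup K V)) with hS
    have hgen : ∀ p ∈ G0, Φ p ∈ S := fun p hp =>
      Subsemigroup.subset_closure (Finset.mem_coe.2 (Finset.mem_image_of_mem _ hp))
    have hadd : ∀ r s : ℝ, Φ (eu K r, 1) ∈ S → Φ (eu K s, 1) ∈ S → Φ (eu K (r + s), 1) ∈ S := by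
      intro r s h1 h2
      have := S.mul_mem h1 h2
      rwa [← map_mul, Prod.mk_mul_mk, mul_one, ← eu_add] at this
    have hint : ∀ a : ℝ, Φ (eu K a, 1) ∈ S → Φ (eu K (-a), 1) ∈ S →
        ∀ n : ℤ, Φ (eu K (n • a), 1) ∈ S := by
      intro a h1 h2 n
      induction n using Int.induction_on with
      | zero => simpa using hadd _ _ h1 h2
      | succ n ih => rw [add_zsmul, one_zsmul]; exact hadd _ _ ih h1
      | pred n ih => rw [sub_zsmul, one_zsmul]; exact hadd _ _ ih h2
    have hall : ∀ r ∈ AddSubgroup.closure ({√2, 1} : Set ℝ), Φ (eu K r, 1) ∈ S := by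
      intro r hr
      obtain ⟨p, q, rfl⟩ := AddSubgroup.mem_closure_pair.1 hr
      exact hadd _ _ (hint _ (hgen _ (by simp [G0])) (hgen _ (by simp [G0])) p)
        (hint _ (hgen _ (by simp [G0])) (hgen _ (by simp [G0])) q)
    have hd : Dense (AddSubgroup.closure ({√2, 1} : Set ℝ) : Set ℝ) :=
      dense_addSubgroupClosure_pair_iff.2 (by simpa using irrational_sqrt_two)
    intro z hz
    obtain ⟨i, s, hs, rfl⟩ := mem_iUnion.1 hz
    have hc : Continuous fun r : ℝ => ((Real.exp r : ℝ) : K) • w i := by fun_prop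
    have ho : IsOpen {r : ℝ | dist ((s : K) • w i) (((Real.exp r : ℝ) : K) • w i) < 1} :=
      isOpen_lt (continuous_const.dist hc) continuous_const
    obtain ⟨r, hr1, hr2⟩ := hd.inter_open_nonempty _ ho
      ⟨Real.log s, by simp [Real.exp_log hs]⟩
    refine mem_iUnion₂.2 ⟨((Real.exp r : ℝ) : K) • w i, ?_, hr1⟩
    refine ⟨_, S.mul_mem (hall r hr2) (hgen (g i) (by simp [G0])), ?_⟩
    rw [← map_mul]
    change _ = phi l _ v
    rw [phi_apply]
    simp [g, t, hv, eu, smul_smul, hlw i]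
  · intro y
    have hinv : ∀ s ∈ Subsemigroup.closure
        ((G0.image Φ : Finset _) : Set (LinearMap.GeneralLinearGroup K V)),
        ∃ (c : Kˣ) (n : Fin m → ℕ), s = Φ (c, Multiplicative.ofAdd (∑ j, n j • t j)) := by
      intro s hs
      induction hs using Subsemigroup.closure_induction with
      | mem x hx =>
        obtain ⟨p, hp, rfl⟩ := Finset.mem_image.1 (Finset.mem_coe.1 hx)
        rcases Finset.mem_union.1 hp with hp | hp
        · obtain ⟨i, -, rfl⟩ := Finset.mem_image.1 hp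
          refine ⟨(g i).1, Pi.single i 1, ?_⟩
          have : ∑ j, (Pi.single i 1 : Fin m → ℕ) j • t j = t i := by
            simp [Pi.single_apply, ite_smul]
          rw [this]
        · simp only [Finset.mem_insert, Finset.mem_singleton] at hp
          have key : ∀ c : Kˣ, Φ (c, 1) =
              Φ (c, Multiplicative.ofAdd (∑ j, (0 : Fin m → ℕ) j • t j)) := fun c => by simp
          rcases hp with rfl | rfl | rfl | rfl <;> exact ⟨_, 0, key _⟩
      | mul x y _ _ hx hy =>
        obtain ⟨c, n, rfl⟩ := hx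
        obtain ⟨d, k, rfl⟩ := hy
        refine ⟨c * d, n + k, ?_⟩
        rw [← map_mul, Prod.mk_mul_mk, ← ofAdd_add, ← Finset.sum_add_distrib]
        simp [add_smul]
    by_contra hne
    obtain ⟨z0, hz0⟩ := nonempty_iff_ne_empty.2 hne
    have hlc : Continuous l := l.continuous_of_finiteDimensional
    have hψc : Continuous ψ := ψ.continuous_of_finiteDimensional
    -- a point of the interior with `l z ≠ 0`
    obtain ⟨z, hz, hlz⟩ : ∃ z ∈ interior (closure (orbit (G0.image Φ) y)), l z ≠ 0 := by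
      by_contra hc
      push Not at hc
      have hcont : Continuous fun s : ℝ => z0 + (s : K) • v0 := by fun_prop
      have h1 : ∀ᶠ s : ℝ in 𝓝 0, z0 + (s : K) • v0 ∈ interior (closure (orbit (G0.image Φ) y)) :=
        hcont.continuousAt.eventually (isOpen_interior.mem_nhds (by simpa using hz0))
      obtain ⟨s, hs1, hs2⟩ := ((h1.filter_mono nhdsWithin_le_nhds).and
        (self_mem_nhdsWithin : ({0}ᶜ : Set ℝ) ∈ 𝓝[≠] 0)).exists
      have h2 := hc _ hs1
      rw [map_add, map_smul, hv0, hc _ hz0] at h2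
      exact hs2 (by simpa using h2)
    let h : V → ℝ := fun x => RCLike.re (ψ x / l x)
    let Λ : Set ℝ := {r | ∃ n : Fin m → ℕ, r = ∑ j, n j * RCLike.re (ψ (t j))}
    have horb : ∀ x ∈ orbit (G0.image Φ) y, l x ≠ 0 → h x - h y ∈ Λ := by
      rintro x ⟨s, hs, rfl⟩ hx
      obtain ⟨c, n, rfl⟩ := hinv s hs
      change l (phi l _ y) ≠ 0 at hx
      change h (phi l _ y) - h y ∈ Λ
      rw [phi_apply] at hx ⊢
      have h0 : l ((∑ j, n j • t j : LinearMap.ker l) : V) = 0 := (∑ j, n j • t j).2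
      simp only [toAdd_ofAdd] at hx ⊢
      have hly : l y ≠ 0 := by
        intro h
        apply hx
        simp [h]
      refine ⟨n, ?_⟩
      have e : ψ ((c : K) • (y + l y • ((∑ j, n j • t j : LinearMap.ker l) : V))) /
          l ((c : K) • (y + l y • ((∑ j, n j • t j : LinearMap.ker l) : V))) =
          ψ y / l y + ψ ((∑ j, n j • t j : LinearMap.ker l) : V) := by
        simp only [map_smul, map_add, h0, smul_eq_mul, mul_zero, add_zero]
        have := c.ne_zero
        field_simp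
      simp only [h]
      rw [e, map_add]
      simp [map_sum]
    have hcl : ∀ x ∈ closure (orbit (G0.image Φ) y), l x ≠ 0 → h x - h y ∈ Λ := by
      intro x hx hlx
      have hca : ContinuousAt (fun x => h x - h y) x := by
        refine ContinuousAt.sub ?_ continuousAt_const
        exact RCLike.continuous_re.continuousAt.comp
          (hψc.continuousAt.div hlc.continuousAt hlx)
      have hfin := fin_bdd (fun j => RCLike.re (ψ (t j))) ht (h x - h y + 1)
      refine (hfin.isClosed.mem_of_frequently_of_tendsto ?_ hca).1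
      have e1 : ∀ᶠ x' in 𝓝 x, l x' ≠ 0 := hlc.continuousAt.eventually_ne hlx
      have e2 : ∀ᶠ x' in 𝓝 x, h x' - h y < h x - h y + 1 :=
        hca.eventually (gt_mem_nhds (by linarith))
      refine ((mem_closure_iff_frequently.1 hx).and_eventually (e1.and e2)).mono ?_
      rintro x' ⟨h1, h2, h3⟩
      exact ⟨horb x' h1 h2, h3⟩
    have hcont : Continuous fun s : ℝ => z + ((s : K) * l z) • u := by fun_prop
    have h1 : ∀ᶠ s : ℝ in 𝓝 0, z + ((s : K) * l z) • u ∈
        interior (closure (orbit (G0.image Φ) y)) :=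
      hcont.continuousAt.eventually (isOpen_interior.mem_nhds (by simpa using hz))
    have h2 : ∀ᶠ s : ℝ in 𝓝 0, s < 1 := gt_mem_nhds one_pos
    have hfin := fin_bdd (fun j => RCLike.re (ψ (t j))) ht (h z - h y + 1)
    have h3 : {s : ℝ | h z - h y + s ∈ Λ ∩ Iio (h z - h y + 1)} ∈ 𝓝 (0 : ℝ) := by
      filter_upwards [h1, h2] with s hs1 hs2
      have e0 : l (z + ((s : K) * l z) • u) = l z := by simp [hlu]
      have e : h (z + ((s : K) * l z) • u) = h z + s := by
        simp only [h]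
        rw [e0, map_add, map_smul, hψ, add_div, map_add]
        simp [hlz]
      have := hcl _ (interior_subset hs1) (by rwa [e0])
      rw [e] at this
      refine ⟨by convert this using 1; ring, ?_⟩
      simp only [mem_Iio]
      linarith
    exact infinite_of_mem_nhds _ h3
      (hfin.preimage (f := fun s => h z - h y + s) (add_right_injective _).injOn)

theorem summ {ι : Type*} [Fintype ι] (r : ι → ℝ) (h0 : ∀ i, 0 ≤ r i) (h1 : ∀ i, r i < 1) :
    Summable fun n : ι → ℕ => ∏ i, r i ^ n i := by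
  classical
  refine summable_of_sum_le (c := ∏ i, (1 - r i)⁻¹)
    (fun n => Finset.prod_nonneg fun i _ => pow_nonneg (h0 i) _) fun s => ?_
  obtain ⟨N, hN⟩ : ∃ N, ∀ n ∈ s, ∀ i, n i < N := by
    obtain ⟨N, hN⟩ := ((s ×ˢ (Finset.univ : Finset ι)).image fun p => p.1 p.2).bddAbove
    refine ⟨N + 1, fun n hn i => Nat.lt_succ_of_le (hN ?_)⟩
    exact Finset.mem_coe.2 (Finset.mem_image.2 ⟨(n, i), by simp [hn], rfl⟩)
  calc ∑ n ∈ s, ∏ i, r i ^ n i
      ≤ ∑ n ∈ Fintype.piFinset (fun _ : ι => Finset.range N), ∏ i, r i ^ n i := by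
        refine Finset.sum_le_sum_of_subset_of_nonneg (fun n hn => ?_)
          (fun n _ _ => Finset.prod_nonneg fun i _ => pow_nonneg (h0 i) _)
        simpa using hN n hn
    _ = ∏ i, ∑ j ∈ Finset.range N, r i ^ j := (Finset.prod_univ_sum _ _).symm
    _ ≤ ∏ i, (1 - r i)⁻¹ := by
        refine Finset.prod_le_prod (fun i _ => Finset.sum_nonneg fun j _ => pow_nonneg (h0 i) _)
          fun i _ => ?_
        rw [← tsum_geometric_of_lt_one (h0 i) (h1 i)]
        exact (summable_geometric_of_lt_one (h0 i) (h1 i)).sum_le_tsum _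
          fun j _ => pow_nonneg (h0 i) _

theorem count {ι : Type*} [Fintype ι] (a : ι → ℝ) (ha : ∀ i, 1 ≤ a i) {β D : ℝ} (hβ : 0 < β)
    (hD : 0 < D) : ¬ ∀ t : ℝ, 0 < t → ∃ n : ι → ℕ, |(∏ i, a i ^ n i) * β - t| < D := by
  classical
  intro h
  let r : ι → ℝ := fun i => if a i = 1 then 0 else (a i)⁻¹
  have h0 : ∀ i, 0 ≤ r i := fun i => by
    have := ha i
    simp only [r]; split_ifs
    · exact le_rfl
    · positivity
  have h1 : ∀ i, r i < 1 := fun i => by
    simp only [r]; split_ifs with hi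
    · exact one_pos
    · exact inv_lt_one_of_one_lt₀ (lt_of_le_of_ne (ha i) (Ne.symm hi))
  have h2 : ∀ j : ℕ, ∃ n : ι → ℕ, |(∏ i, a i ^ n i) * β - 2 * D * (j + 1)| < D ∧
      ∏ i, r i ^ n i = (∏ i, a i ^ n i)⁻¹ := by
    intro j
    obtain ⟨n, hn⟩ := h (2 * D * (j + 1)) (by positivity)
    refine ⟨fun i => if a i = 1 then 0 else n i, ?_, ?_⟩
    · convert hn using 4
      refine Finset.prod_congr rfl fun i _ => ?_
      simp only
      split_ifs with hi
      · simp [hi]
      · rfl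
    · rw [← Finset.prod_inv_distrib]
      refine Finset.prod_congr rfl fun i _ => ?_
      simp only [r]
      split_ifs with hi
      · simp
      · simp
  choose n hn1 hn2 using h2
  have hinj : Function.Injective n := by
    intro j k hjk
    have a1 := abs_lt.1 (hn1 j)
    have a2 := abs_lt.1 (hn1 k)
    rw [hjk] at a1
    have b1 : (j : ℝ) < k + 1 := by nlinarith
    have b2 : (k : ℝ) < j + 1 := by nlinarith
    have c1 : j < k + 1 := by exact_mod_cast b1
    have c2 : k < j + 1 := by exact_mod_cast b2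
    omega
  have hs := ((summ r h0 h1).comp_injective hinj).mul_left (3 * D / β)
  have hs2 : Summable fun j : ℕ => 1 / ((j + 1 : ℕ) : ℝ) := by
    refine hs.of_nonneg_of_le (fun j => by positivity) fun j => ?_
    have a1 := abs_lt.1 (hn1 j)
    have hp : 0 < ∏ i, a i ^ n j i :=
      Finset.prod_pos fun i _ => pow_pos (by linarith [ha i]) _
    simp only [Function.comp]
    rw [hn2 j, ← div_eq_mul_inv, div_div, div_le_div_iff₀ (by positivity) (by positivity)]
    push_cast
    have : (0 : ℝ) ≤ j := Nat.cast_nonneg j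
    nlinarith
  exact Real.not_summable_one_div_natCast ((summable_nat_add_iff 1).1 hs2)

theorem core {ι : Type*} [Fintype ι] (c : ι → K) (M : Set K)
    (hM : ∀ x ∈ M, ∀ y ∈ M, x * y ∈ M) (hc : ∀ i, c i ∈ M) (hc0 : ∀ i, c i ≠ 0)
    (hgen : ∀ x ∈ M, ∃ n : ι → ℕ, x = ∏ i, c i ^ n i) (ν : K) {D : ℝ} (hD : 0 < D) (Ω : Set K)
    (h1 : (1 : K) ∈ Ω) (hΩ : ∀ ω ∈ Ω, ∀ t : ℝ, 0 < t → ∃ x ∈ M, ‖x * ν - t * ω‖ < D) :
    ∃ η : K, η ≠ 0 ∧ ∀ ω ∈ Ω, ∀ t : ℝ, 0 < t → (t : K) * η * ω ∈ closure M := by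
  have hν : ν ≠ 0 := by
    rintro rfl
    obtain ⟨x, -, hx⟩ := hΩ 1 h1 D hD
    simp [abs_of_pos hD] at hx
  obtain ⟨i, hi⟩ : ∃ i, ‖c i‖ < 1 := by
    by_contra hcon
    push Not at hcon
    refine count (fun i => ‖c i‖) hcon (norm_pos_iff.2 hν) hD fun t ht => ?_
    obtain ⟨x, hx, hx2⟩ := hΩ 1 h1 t ht
    obtain ⟨n, rfl⟩ := hgen x hx
    refine ⟨n, lt_of_le_of_lt ?_ hx2⟩
    have := abs_norm_sub_norm_le ((∏ i, c i ^ n i) * ν) ((t : K) * 1)
    simpa [abs_of_pos ht] using this
  have ha : 0 < ‖c i‖ := norm_pos_iff.2 (hc0 i)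
  set a := c i
  have haK : ((‖a‖ : ℝ) : K) ≠ 0 := by exact_mod_cast ha.ne'
  obtain ⟨η, hη, φ, hφ, hlim⟩ := (isCompact_sphere (0 : K) 1).tendsto_subseq
    (x := fun n : ℕ => (a / (‖a‖ : K)) ^ n) (fun n => by simp [ha.ne'])
  have hη0 : η ≠ 0 := by
    rintro rfl
    simp at hη
  have hpow : ∀ n : ℕ, ∀ x ∈ M, a ^ n * x ∈ M := by
    intro n x hx
    induction n with
    | zero => simpa using hx
    | succ n ih => rw [pow_succ', mul_assoc]; exact hM _ (hc i) _ ih
  refine ⟨η / ν, div_ne_zero hη0 hν, fun ω hω t ht => ?_⟩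
  choose x hx1 hx2 using fun n : ℕ => hΩ ω hω (t / ‖a‖ ^ n) (by positivity)
  refine mem_closure_of_tendsto (f := fun j => a ^ φ j * x (φ j)) (b := atTop) ?_
    (Eventually.of_forall fun j => hpow _ _ (hx1 _))
  have e1 : Tendsto (fun n => a ^ n * (x n * ν - ((t / ‖a‖ ^ n : ℝ) : K) * ω)) atTop (𝓝 0) := by
    refine squeeze_zero_norm (a := fun n => ‖a‖ ^ n * D) (fun n => ?_) ?_
    · rw [norm_mul, norm_pow]
      exact mul_le_mul_of_nonneg_left (hx2 n).le (by positivity)
    · simpa using (tendsto_pow_atTop_nhds_zero_of_lt_one ha.le hi).mul_const D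
  have e2 := ((e1.comp hφ.tendsto_atTop).add ((hlim.const_mul (t : K)).mul_const ω)).div_const ν
  convert e2 using 2
  · simp only [Function.comp, div_pow]
    push_cast
    field_simp
    ring
  · field_simp
    ring

theorem low_core [FiniteDimensional K V] (hV : Module.finrank K V = 1) {e : V} (he : e ≠ 0)
    (G : Finset (LinearMap.GeneralLinearGroup K V)) (v : V) (Ω : Set K) (h1 : (1 : K) ∈ Ω)
    {D : ℝ} (hD : 0 < D) (h : ∀ ω ∈ Ω, ray K (ω • e) ⊆ ⋃ a ∈ orbit G v, Metric.ball a D)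
    (fin : ∀ M : Set K, (∀ x ∈ M, ∀ y ∈ M, x * y ∈ M) → ∀ η : K, η ≠ 0 →
      (∀ ω ∈ Ω, ∀ t : ℝ, 0 < t → (t : K) * η * ω ∈ closure M) →
        (interior (closure M)).Nonempty) :
    (interior (closure (orbit G e))).Nonempty := by
  classical
  have hs : ∀ g : LinearMap.GeneralLinearGroup K V, ∃ c : K, ∀ x, (g : V →ₗ[K] V) x = c • x := by
    intro g
    obtain ⟨c, hc, -⟩ := LinearMap.existsUnique_eq_smul_id_of_finrank_eq_one hV (g : V →ₗ[K] V)
    exact ⟨c, fun x => by rw [hc]; simp⟩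
  choose χ hχ using hs
  have hmul : ∀ g h, χ (g * h) = χ g * χ h := by
    intro g h
    apply smul_left_injective K he
    simp only
    rw [← hχ, Units.val_mul, Module.End.mul_apply, hχ h, map_smul, hχ g, smul_smul, mul_comm]
  have hχ0 : ∀ g, χ g ≠ 0 := by
    intro g hg
    have h1 := hχ (g⁻¹ * g) e
    rw [hmul, hg, inv_mul_cancel] at h1
    exact he (by simpa using h1)
  let M : Set K := χ '' Subsemigroup.closure (G : Set (LinearMap.GeneralLinearGroup K V))
  have hM : ∀ x ∈ M, ∀ y ∈ M, x * y ∈ M := by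
    rintro _ ⟨g, hg, rfl⟩ _ ⟨h, hh, rfl⟩
    exact ⟨g * h, Subsemigroup.mul_mem _ hg hh, hmul g h⟩
  obtain ⟨ν, rfl⟩ := exists_smul_eq_of_finrank_eq_one hV he v
  have hen : 0 < ‖e‖ := norm_pos_iff.2 he
  obtain ⟨η, hη, hη2⟩ := core (fun g : G => χ g) M hM
    (fun g => ⟨g, Subsemigroup.subset_closure g.2, rfl⟩) (fun g => hχ0 g) (by
      rintro _ ⟨g, hg, rfl⟩
      induction hg using Subsemigroup.closure_induction with
      | mem x hx =>
        refine ⟨Pi.single ⟨x, hx⟩ 1, ?_⟩
        rw [Finset.prod_eq_single ⟨x, hx⟩] <;> simp +contextual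
      | mul x y _ _ hx hy =>
        obtain ⟨n, hn⟩ := hx
        obtain ⟨k, hk⟩ := hy
        exact ⟨n + k, by simp [hmul, hn, hk, pow_add, Finset.prod_mul_distrib]⟩)
    ν (D := D / ‖e‖) (by positivity) Ω h1 (by
      intro ω hω t ht
      obtain ⟨_, ⟨g, hg, rfl⟩, hb⟩ := mem_iUnion₂.1 (h ω hω ⟨t, ht, rfl⟩)
      refine ⟨χ g, ⟨g, hg, rfl⟩, ?_⟩
      rw [Metric.mem_ball, dist_comm, dist_eq_norm, hχ, smul_smul, smul_smul, ← sub_smul,
        norm_smul] at hb
      rwa [lt_div_iff₀ hen])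
  obtain ⟨z, hz⟩ := fin M hM η hη hη2
  have hopen : IsOpenMap (LinearMap.toSpanSingleton K V e) :=
    LinearMap.isOpenMap_of_finiteDimensional _
      (fun y => exists_smul_eq_of_finrank_eq_one hV he y)
  refine ⟨_, hopen.image_interior_subset _ ⟨z, hz, rfl⟩ |> interior_mono ?_⟩
  refine (image_closure_subset_closure_image
    (LinearMap.toSpanSingleton K V e).continuous_of_finiteDimensional).trans (closure_mono ?_)
  rintro _ ⟨_, ⟨g, hg, rfl⟩, rfl⟩
  exact ⟨g, hg, by simp [hχ]⟩

theorem low_real (V : Type*) [NormedAddCommGroup V] [NormedSpace ℝ V] [FiniteDimensional ℝ V]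
    (hV : Module.finrank ℝ V = 1) : RaysForce ℝ V := by
  haveI : Nontrivial V := Module.nontrivial_of_finrank_pos (R := ℝ) (by omega)
  obtain ⟨e, he⟩ := exists_ne (0 : V)
  refine ⟨1, fun _ => e, fun _ => he, fun G _ ⟨v, D, hD, h⟩ => ⟨e, ?_⟩⟩
  refine low_core hV he G v {1} rfl hD ?_ ?_
  · rintro _ rfl
    rw [one_smul]
    exact (subset_iUnion (fun _ : Fin 1 => ray ℝ e) 0).trans h
  · intro M _ η hη h
    refine ⟨η, mem_interior.2 ⟨{x | 0 < x / η}, fun x hx => ?_,
      isOpen_lt continuous_const (by fun_prop), by simp [hη]⟩⟩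
    have := h 1 rfl (x / η) hx
    simpa [hη] using this

theorem low_complex (V : Type*) [NormedAddCommGroup V] [NormedSpace ℂ V] [FiniteDimensional ℂ V]
    (hV : Module.finrank ℂ V = 1) : RaysForce ℂ V := by
  haveI : Nontrivial V := Module.nontrivial_of_finrank_pos (R := ℂ) (by omega)
  obtain ⟨e, he⟩ := exists_ne (0 : V)
  let ω : Circle := Circle.exp (√2 * (2 * Real.pi))
  refine ⟨2, ![e, (ω : ℂ) • e], ?_, fun G _ ⟨v, D, hD, h⟩ => ⟨e, ?_⟩⟩
  · intro i
    fin_cases i
    · exact he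
    · exact smul_ne_zero ω.coe_ne_zero he
  refine low_core hV he G v {1, (ω : ℂ)} (Or.inl rfl) hD ?_ ?_
  · rintro _ (rfl | rfl)
    · rw [one_smul]
      exact (subset_iUnion (fun i : Fin 2 => ray ℂ (![e, (ω : ℂ) • e] i)) 0).trans h
    · exact (subset_iUnion (fun i : Fin 2 => ray ℂ (![e, (ω : ℂ) • e] i)) 1).trans h
  · intro M hM η hη h
    have hC : ∀ x ∈ closure M, ∀ y ∈ closure M, x * y ∈ closure M := fun x hx y hy =>
      map_mem_closure₂ continuous_mul hx hy hM
    let U : Set Circle := {u | ∀ t : ℝ, 0 < t → (t : ℂ) * u ∈ closure M}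
    have hUc : IsClosed U := by
      simp only [U, ofPred_forall]
      exact isClosed_iInter fun t => isClosed_iInter fun _ =>
        isClosed_closure.preimage (by fun_prop)
    have hUm : ∀ a ∈ U, ∀ b ∈ U, a * b ∈ U := by
      intro a ha b hb t ht
      have := hC _ (ha t ht) _ (hb 1 one_pos)
      simpa [mul_assoc] using this
    have hUz : ∀ a ∈ U, ∀ m : ℤ, a ^ m ∈ U := by
      intro a ha m
      have hn : ∀ n : ℕ, a ^ (n + 1) ∈ U := by
        intro n
        induction n with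
        | zero => simpa using ha
        | succ n ih => rw [pow_succ]; exact hUm _ ih _ ha
      refine hUc.mem_of_mapClusterPt (mapClusterPt_self_zpow_atTop_pow a m) ?_
      filter_upwards [eventually_ge_atTop 1] with n hn1
      obtain ⟨k, rfl⟩ : ∃ k, n = k + 1 := ⟨n - 1, by omega⟩
      exact hn k
    let β : Circle := Circle.exp η.arg
    have hηn : 0 < ‖η‖ := norm_pos_iff.2 hη
    have hβ : ∀ t : ℝ, (t : ℂ) * β = ((t / ‖η‖ : ℝ) : ℂ) * η := by
      intro t
      have h1 := Complex.norm_mul_exp_arg_mul_I η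
      have h2 : ((‖η‖ : ℝ) : ℂ) ≠ 0 := by exact_mod_cast hηn.ne'
      simp only [β, Circle.coe_exp]
      push_cast
      field_simp
      linear_combination (t : ℂ) * h1
    have hβU : β ∈ U := fun t ht => by
      rw [hβ]; simpa using h 1 (Or.inl rfl) (t / ‖η‖) (by positivity)
    have hβω : β * ω ∈ U := fun t ht => by
      rw [Circle.coe_mul, ← mul_assoc, hβ]
      exact h _ (Or.inr rfl) (t / ‖η‖) (by positivity)
    have hω : ω ∈ U := by
      have := hUm _ (hUz _ hβU (-1)) _ hβω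
      simpa using this
    have hd : Dense (AddSubgroup.closure ({√2 * (2 * Real.pi), 2 * Real.pi} : Set ℝ) : Set ℝ) :=
      dense_addSubgroupClosure_pair_iff.2 (by
        rw [mul_div_assoc, div_self (by positivity), mul_one]; exact irrational_sqrt_two)
    have hall : ∀ θ : ℝ, Circle.exp θ ∈ U := by
      intro θ
      refine hd.induction (P := fun θ => Circle.exp θ ∈ U) ?_
        (hUc.preimage Circle.exp.continuous) θ
      intro r hr
      obtain ⟨p, q, rfl⟩ := AddSubgroup.mem_closure_pair.1 hr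
      rw [Circle.exp_add, zsmul_eq_mul, zsmul_eq_mul, Circle.exp_int_mul_two_pi, mul_one,
        Circle.exp_intCast_mul]
      exact hUz _ hω p
    refine ⟨1, mem_interior.2 ⟨{0}ᶜ, fun z hz => ?_, isOpen_compl_singleton, by simp⟩⟩
    have := hall z.arg ‖z‖ (norm_pos_iff.2 hz)
    rwa [Circle.coe_exp, Complex.norm_mul_exp_arg_mul_I] at this

theorem not_force (K V : Type*) [RCLike K] [NormedAddCommGroup V] [NormedSpace K V]
    [FiniteDimensional K V] [Nontrivial V] (h : RaysForce K V) : Module.finrank K V = 1 := by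
  have h0 : 0 < Module.finrank K V := Module.finrank_pos
  by_contra hne
  obtain ⟨m, w, hw, H⟩ := h
  obtain ⟨G, h1, h2, h3⟩ := high K V (by omega) m w hw
  obtain ⟨y, hy⟩ := H G h1 h2
  rw [h3 y] at hy
  exact not_nonempty_empty hy

/-- For a non-zero finite-dimensional real or complex space `V`, finitely many rays force a
somewhere dense orbit if and only if `V` is one-dimensional over its scalar field. -/
theorem result :
    (∀ (V : Type) [NormedAddCommGroup V] [NormedSpace ℝ V] [FiniteDimensional ℝ V] [Nontrivial V],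
      RaysForce ℝ V ↔ Module.finrank ℝ V = 1) ∧
    (∀ (V : Type) [NormedAddCommGroup V] [NormedSpace ℂ V] [FiniteDimensional ℂ V] [Nontrivial V],
      RaysForce ℂ V ↔ Module.finrank ℂ V = 1) :=
  ⟨fun V _ _ _ _ => ⟨not_force ℝ V, low_real V⟩, fun V _ _ _ _ => ⟨not_force ℂ V, low_complex V⟩⟩

end Pool.Agent.Results.MP_c0f1e3_an.RaysDoNotSuffice
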